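import Pool.Agent.Helper65.BQ.Final
import Pool.Agent.Helper65.BQ.M_FAM
import Pool.Agent.Helper65.BQ.M_EXT
import Pool.Agent.Helper65.BQ.M_CO0
import Pool.Agent.Helper65.BQ.M_ZER
import Pool.Agent.Helper98.BQ.M_GLU
import Pool.Agent.Helper4.BQ.M_SEQ
import Pool.Agent.Helper42.BQ.M_CPT
import Pool.Agent.Helper80.BQ.M_SPW
import Pool.Agent.Helper60.BQ.M_FIB
import Pool.Agent.Helper74.BQ.M_CAN
import Pool.Agent.Helper74.BQ.M_CO2
import Pool.Agent.Helper74.BQ.M_MEE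
import Pool.Agent.Helper29.BQ.M_CON
import Pool.Agent.Helper28.BQ.M_SIX
import Pool.Agent.Helper2.BQ.M_CO1
import Pool.Agent.Helper18.BQ.M_BOR
import Pool.Agent.Helper35.BQ.M_HIL
import Pool.Agent.Helper33.BQ.M_PFS

/-! The Borel class at which the assertion of Q1 fails, for subsets of a strongly
infinite-dimensional compactum (for instance the Hilbert cube) which meet all its strongly
infinite-dimensional compact subsets: it holds for F-sigma-delta sets, and it fails in the strongest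
possible way for G-delta-sigma-delta sets. -/

open Set Topology TopologicalSpace Pool.Agent.Helper9.SID

theorem Pool.Agent.Results.MP_ee405c_gt.BorelThreshold.result :
    StronglyInfDim (ℕ → unitInterval) ∧
    ∀ (K : Type) [TopologicalSpace K] [CompactSpace K] [MetrizableSpace K], StronglyInfDim K →
      (∃ X : Set K, (∃ G : ℕ → ℕ → Set K, (∀ m n, IsGδ (G m n)) ∧ X = ⋂ m, ⋃ n, G m n) ∧
        (∀ T : Set K, IsClosed T → StronglyInfDim T → (T ∩ X).Nonempty) ∧ StronglyInfDim X ∧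
        (∀ Y : Set X, IsGδ Y → TotallyDisconnectedSpace Y → Y.Nonempty → ZeroDim Y) ∧
        ∀ Z : ℕ → Set X, (∀ n, IsGδ (Z n)) → TotallyDisconnectedSpace (⋃ n, Z n : Set X) →
          ¬ StronglyInfDim (⋃ n, Z n : Set X)) ∧
      ∀ (X : Set K) (F : ℕ → ℕ → Set K), (∀ m n, IsClosed (F m n)) → X = ⋂ m, ⋃ n, F m n →
        (∀ T : Set K, IsClosed T → StronglyInfDim T → (T ∩ X).Nonempty) →
        ∃ Y ⊆ X, IsGδ Y ∧ StronglyInfDim Y ∧ TotallyDisconnectedSpace Y ∧ HeredSID Y := by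
  have hEXT := Pool.Agent.Helper65.BQ.pEXT
  have hGLU := Pool.Agent.Helper98.BQ.pGLU hEXT
  have hCPT := Pool.Agent.Helper42.BQ.pCPT
  have hSPW := Pool.Agent.Helper80.BQ.pSPW
  exact Pool.Agent.Helper65.BQ.final Pool.Agent.Helper65.BQ.pFAM
    (Pool.Agent.Helper4.BQ.pSEQ hEXT)
    (Pool.Agent.Helper33.BQ.pPFS hSPW hCPT)
    (Pool.Agent.Helper18.BQ.pBOR Pool.Agent.Helper74.BQ.pCO2)
    (Pool.Agent.Helper74.BQ.pMEE hSPW (Pool.Agent.Helper60.BQ.pFIB hGLU hCPT)
      Pool.Agent.Helper65.BQ.pCO0)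
    Pool.Agent.Helper28.BQ.pSIX
    (Pool.Agent.Helper29.BQ.pCON (Pool.Agent.Helper74.BQ.pCAN hGLU hCPT))
    (Pool.Agent.Helper65.BQ.pZER (Pool.Agent.Helper2.BQ.pCO1 hCPT))
    Pool.Agent.Helper35.BQ.pHIL
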