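import Pool.Agent.Helper9.SID.Final

/-! Q1 for spaces covered by countably many pieces, each of which is not strongly
infinite-dimensional, or a G-delta subspace that maps suitably to a countable union of totally
disconnected G-delta or zero-dimensional subspaces. -/

open Set Topology TopologicalSpace Pool.Agent.Helper9.SID

theorem Pool.Agent.Results.MP_ee405c_gt.CoversAndMaps.result
    (X : Type) [TopologicalSpace X] [MetrizableSpace X] [SecondCountableTopology X]
    (Z : ℕ → Set X) (hs : StronglyInfDim (⋃ n, Z n : Set X))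
    (hZ : ∀ n, ¬ StronglyInfDim (Z n) ∨ (IsGδ (Z n) ∧ Reducible (Z n))) :
    ∃ Y : Set X, (∃ n, Y ⊆ Z n) ∧ IsGδ Y ∧ StronglyInfDim Y ∧ TotallyDisconnectedSpace Y ∧
      HeredSID Y :=
  q1_main X Z hs hZ
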