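import Pool.Agent.Helper9.SID.Main1

/-! Every strongly infinite-dimensional separable metrizable space contains a G-delta subspace that
is strongly infinite-dimensional and hereditarily strongly infinite-dimensional. -/

open Set Topology TopologicalSpace Pool.Agent.Helper9.SID

theorem Pool.Agent.Results.MP_ee405c_gt.HereditaryGdelta.result
    (X : Type) [TopologicalSpace X] [MetrizableSpace X] [SecondCountableTopology X]
    (hX : StronglyInfDim X) :
    ∃ Y : Set X, IsGδ Y ∧ StronglyInfDim Y ∧ HeredSID Y :=
  exists_gdelta_hsid X hX
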