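import Pool.Agent.Helper9.SID.Cantor

/-! Every strongly infinite-dimensional separable metrizable space contains a subspace that is
strongly infinite-dimensional, hereditarily strongly infinite-dimensional, and maps continuously
and injectively into the Cantor space. -/

open Set Topology TopologicalSpace Pool.Agent.Helper9.SID

theorem Pool.Agent.Results.MP_ee405c_gt.InjectsIntoCantor.result
    (X : Type) [TopologicalSpace X] [MetrizableSpace X] [SecondCountableTopology X]
    (hX : StronglyInfDim X) :
    ∃ Y : Set X, StronglyInfDim Y ∧ HeredSID Y ∧
      ∃ g : Y → (ℕ → Bool), Continuous g ∧ Function.Injective g :=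
  exists_cantor_hsid X hX
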